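import Pool.Agent.Helper94.GA.Goals

namespace Pool.Agent.Helper6.GA

open Finset
open Pool.Agent.Helper94.GA

/-- The greedy path from an arbitrary admissible state. -/
theorem grd3_aux (C : Type) [Fintype C] [Nonempty C] [DecidableEq C] (Elig : (C → ℕ) → C → Prop)
    (L : ℕ) (hL : 1 ≤ L) (hex : ∀ t, ∃ c, Elig t c)
    (hel : ∀ (t : C → ℕ) (c c' : C), t c + L ≤ t c' → Elig t c) (n : ℕ) :
    ∀ (k : ℕ) (t0 : C → ℕ), (∀ a b, t0 a ≤ t0 b + L) → (∀ a, t0 a ≤ n) →
      ∑ a, (n - t0 a) = k →
      ∃ (m : ℕ) (t : ℕ → C → ℕ) (c : ℕ → C), t 0 = t0 ∧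
      (∀ i < m, Elig (t i) (c i)) ∧
      (∀ i < m, t (i + 1) = Function.update (t i) (c i) (t i (c i) + 1)) ∧
      (∀ i < m, t i (c i) < n) ∧ (∀ a, n ≤ t m a + L) := by
  intro k
  induction k using Nat.strong_induction_on with
  | _ k ih =>
    intro t0 hinv hle hk
    by_cases hstop : ∃ a, n ≤ t0 a
    · obtain ⟨a, ha⟩ := hstop
      refine ⟨0, fun _ => t0, fun _ => a, rfl, by simp, by simp, by simp, ?_⟩
      intro b
      have := hinv a b
      show n ≤ t0 b + L
      omega
    · push Not at hstop
      -- choose an eligible element with minimal value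
      obtain ⟨c0, hc0, hmin⟩ : ∃ c0, Elig t0 c0 ∧ ∀ c, Elig t0 c → t0 c0 ≤ t0 c := by
        classical
        obtain ⟨c0, hc0, hmin⟩ := Finset.exists_min_image
          (univ.filter (fun c => Elig t0 c)) t0 (by
            obtain ⟨c, hc⟩ := hex t0
            exact ⟨c, by simp [hc]⟩)
        refine ⟨c0, by simpa using hc0, fun c hc => hmin c (by simp [hc])⟩
      set t1 : C → ℕ := Function.update t0 c0 (t0 c0 + 1) with ht1
      have h1ge : ∀ b, t0 b ≤ t1 b := by
        intro b
        by_cases hb : b = c0
        · subst hb; simp [ht1]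
        · simp [ht1, hb]
      have h1c : t1 c0 = t0 c0 + 1 := by simp [ht1]
      have h1n : ∀ b, b ≠ c0 → t1 b = t0 b := by
        intro b hb; simp [ht1, hb]
      have hinv1 : ∀ a b, t1 a ≤ t1 b + L := by
        intro a b
        by_cases ha : a = c0
        · subst ha
          by_cases hb : b = a
          · subst hb; omega
          · rw [h1c, h1n b hb]
            by_contra hcon
            have h2 : t0 b + L ≤ t0 a := by omega
            have h3 := hmin b (hel t0 b a h2)
            omega
        · rw [h1n a ha]
          have := hinv a b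
          have := h1ge b
          omega
      have hle1 : ∀ a, t1 a ≤ n := by
        intro a
        by_cases ha : a = c0
        · subst ha
          rw [h1c]
          have := hstop a
          omega
        · rw [h1n a ha]; exact hle a
      have hlt : ∑ a, (n - t1 a) < k := by
        rw [← hk]
        apply Finset.sum_lt_sum
        · intro b _
          have := h1ge b
          omega
        · refine ⟨c0, mem_univ _, ?_⟩
          rw [h1c]
          have := hstop c0
          omega
      obtain ⟨m, t, c, h0, hE, hU, hN, hF⟩ := ih _ hlt t1 hinv1 hle1 rfl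
      refine ⟨m + 1, fun i => Nat.casesOn i t0 t, fun i => Nat.casesOn i c0 c, rfl, ?_, ?_, ?_, ?_⟩
      · intro i hi
        cases i with
        | zero => exact hc0
        | succ i => exact hE i (by omega)
      · intro i hi
        cases i with
        | zero => exact h0
        | succ i => exact hU i (by omega)
      · intro i hi
        cases i with
        | zero => exact hstop c0
        | succ i => exact hN i (by omega)
      · intro a
        exact hF a

theorem GRD3 : GRD3_stmt := by
  intro C _ _ _ Elig L hL hex hel n
  obtain ⟨m, t, c, h0, hE, hU, hN, hF⟩ :=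
    grd3_aux C Elig L hL hex hel n _ (fun _ => 0) (by intro a b; omega) (by intro a; omega) rfl
  exact ⟨m, t, c, fun a => by rw [h0], hE, hU, hN, hF⟩

end Pool.Agent.Helper6.GA
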